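import Mathlib
import Pool.Agent.Results.MP_181197_gt.CounterexampleCH
import Pool.Agent.Helper292.ForceCH

set_option autoImplicit false

/-!
# MP_181197_gt, Q1: it is consistent that `C_p(X)` is perfectly normal and its square is not
-/

namespace Pool.Agent.Results.MP_181197_gt.ConsistentlyNo

/-- (1) Some notion of forcing forces that `ω₁` is preserved and that the continuum hypothesis
holds. (2) The continuum hypothesis implies that there is a Tychonoff space `X` such that, for the
topology of pointwise convergence, `C_p(X)` is hereditarily Lindelof, normal, and all its closed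
subsets are `G_δ`, but `C_p(X) × C_p(X)` is not perfectly normal. -/
theorem result :
    (∃ (P : Type) (_ : Preorder P), Nonempty P ∧ ∀ p : P,
      p ∈ Pool.Agent.Helper292.ForceCH.OmegaOnePreserved P ∧
      p ∈ Pool.Agent.Helper292.ForceCH.CHHolds P) ∧
    (Cardinal.aleph 1 = Cardinal.continuum.{0} →
      ∃ (X : Type) (_ : TopologicalSpace X), T35Space X ∧
        HereditarilyLindelofSpace {f : X → ℝ // Continuous f} ∧
        (NormalSpace {f : X → ℝ // Continuous f} ∧
          ∀ s : Set {f : X → ℝ // Continuous f}, IsClosed s → IsGδ s) ∧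
        ¬ (NormalSpace ({f : X → ℝ // Continuous f} × {f : X → ℝ // Continuous f}) ∧
          ∀ s : Set ({f : X → ℝ // Continuous f} × {f : X → ℝ // Continuous f}),
            IsClosed s → IsGδ s)) := by
  refine ⟨?_, fun hCH => ?_⟩
  · obtain ⟨P, i, h1, h2⟩ := Pool.Agent.Helper292.ForceCH.exists_forcing
    exact ⟨P, i, h1, fun p => ⟨(h2 p).1, (h2 p).2.2⟩⟩
  · obtain ⟨X, t, h1, h2, h3, h4, -⟩ := CounterexampleCH.result hCH.symm
    exact ⟨X, t, h1, h2, h3, h4⟩

end Pool.Agent.Results.MP_181197_gt.ConsistentlyNo
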